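import Pool.Agent.MP_3ee8cb_gt.DN.Defs
import Pool.Agent.MP_98f34a_gt.H36.Brouwer

/-! A continuous map at bounded distance from the identity of a Hadamard space is onto. -/

namespace Pool.Agent.MP_3ee8cb_gt.DZO

open DN

theorem onto0 {n : ℕ} {G : EuclideanSpace ℝ (Fin n) → EuclideanSpace ℝ (Fin n)} {C : ℝ}
    (hG : Continuous G) (hC : ∀ b, ‖b - G b‖ ≤ C) : Function.Surjective G := fun c => by
  obtain ⟨b, hb⟩ := MP_98f34a_gt.H36.brouwer_euclid (fun b => c + (b - G b))
    (continuous_const.add (continuous_id.sub hG)) (‖c‖ + C)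
    fun b => (norm_add_le _ _).trans (add_le_add le_rfl (hC b))
  refine ⟨b, ?_⟩
  have : c - G b + b = 0 + b := by rw [zero_add]; exact (by abel : _ = c + (b - G b)).trans hb
  exact (sub_eq_zero.1 (add_right_cancel this)).symm

variable [Dim] {m : MF} {lg : V × V → V}

theorem onto1 (ok : m.OK) (hd : m.Had lg) {f : V → V} {C : ℝ} (hf : Continuous f)
    (hC : ∀ z, ‖lg (z, f z)‖ ≤ C) : Function.Surjective f := fun y => by
  have c1 : Continuous fun b : V => (m.Z 1 (0, b)).1 :=
    (ok.cZ.continuous.comp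
      (continuous_const.prodMk (continuous_const.prodMk continuous_id))).fst
  obtain ⟨b, hb⟩ := onto0 (G := fun b => lg (0, f (m.Z 1 (0, b)).1)) (C := C)
    (hd.c1.continuous.comp (continuous_const.prodMk (hf.comp c1)))
    (fun b => by
      have := hd.hinge 0 b (lg (0, f (m.Z 1 (0, b)).1))
      rw [hd.ex] at this
      exact this.trans (hC _)) (lg (0, y))
  refine ⟨(m.Z 1 (0, b)).1, ?_⟩
  have := congrArg (fun c => (m.Z 1 (0, c)).1) hb
  simpa only [hd.ex] using this

/-- A map with a continuous coarse right inverse is onto. -/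
theorem onto2 (ok : m.OK) (hd : m.Had lg) {X : Type} [TopologicalSpace X] {F : X → V}
    {H : V → X} {C : ℝ} (hF : Continuous F) (hH : Continuous H)
    (hC : ∀ z, ‖lg (z, F (H z))‖ ≤ C) : Function.Surjective F :=
  (onto1 ok hd (hF.comp hH) hC).of_comp

end Pool.Agent.MP_3ee8cb_gt.DZO
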